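import Mathlib
import Pool.Agent.R47.DistMat

/-!
# A graph whose largest induced tree is small
-/

set_option autoImplicit false

open Finset

namespace Pool.Agent.Results.MP_e3442a_co.TreeEccLambda

variable {V : Type*} [Fintype V]

/-- `tree(G)`: the largest size of a vertex set inducing a tree. -/
noncomputable def treeNum (G : SimpleGraph V) : ℕ :=
  sSup {k | ∃ S : Finset V, (G.induce (S : Set V)).IsTree ∧ S.card = k}

/-- The eccentricity of `v`. -/
noncomputable def ecc (G : SimpleGraph V) (v : V) : ℕ := univ.sup fun u => G.dist v u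

/-- The average eccentricity. -/
noncomputable def eccAvg (G : SimpleGraph V) : ℝ := (∑ v, (ecc G v : ℝ)) / Fintype.card V

/-- `λ(v)`: the independence number of the subgraph induced on the neighbourhood of `v`. -/
noncomputable def lam (G : SimpleGraph V) (v : V) : ℕ := (G.induce (G.neighborSet v)).indepNum

/-- `max_v λ(v)`. -/
noncomputable def maxLam (G : SimpleGraph V) : ℕ := univ.sup fun v => lam G v

/-- Level of a vertex of the example. -/
def L (u : Fin 19) : ℕ :=
  (![0, 0, 0, 0, 0, 1, 2, 2, 2, 3, 4, 4, 4, 5, 6, 6, 6, 6, 6] : Fin 19 → ℕ) u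

/-- The distance in the example. -/
def D (u v : Fin 19) : ℕ :=
  if u = v then 0 else if L u = L v then (if L u = 0 ∨ L u = 6 then 1 else 2)
  else (L u - L v) + (L v - L u)

/-- The example: seven levels of sizes 5, 1, 3, 1, 3, 1, 5; consecutive levels are completely
joined, and the first and the last level are cliques. -/
def ex : SimpleGraph (Fin 19) where
  Adj u v := D u v = 1
  symm := ⟨by decide +kernel⟩
  loopless := ⟨by decide +kernel⟩

theorem ex_dist : ex.Preconnected ∧ ∀ u v, ex.dist u v = D u v := by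
  apply Pool.Agent.R47.DistMat.dist_eq
  · decide +kernel
  · show ∀ u v w, D v w = 1 → D u w ≤ D u v + 1
    decide +kernel
  · show ∀ u v, u ≠ v → ∃ w, D w v = 1 ∧ D u w + 1 = D u v
    decide +kernel

theorem no_triangle {S : Finset (Fin 19)} (h : (ex.induce (S : Set (Fin 19))).IsTree)
    {a b c : Fin 19} (ha : a ∈ S) (hb : b ∈ S) (hc : c ∈ S) (hab : D a b = 1) (hbc : D b c = 1)
    (hac : D a c = 1) : False := by
  have h1 : (ex.induce (S : Set (Fin 19))).Adj ⟨a, ha⟩ ⟨b, hb⟩ := hab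
  have h2 : (ex.induce (S : Set (Fin 19))).Adj ⟨b, hb⟩ ⟨c, hc⟩ := hbc
  have h3 : (ex.induce (S : Set (Fin 19))).Adj ⟨a, ha⟩ ⟨c, hc⟩ := hac
  let p : (ex.induce (S : Set (Fin 19))).Walk ⟨a, ha⟩ ⟨c, hc⟩ := .cons h1 (.cons h2 .nil)
  let q : (ex.induce (S : Set (Fin 19))).Walk ⟨a, ha⟩ ⟨c, hc⟩ := .cons h3 .nil
  have hp : p.IsPath := by
    simp only [p, SimpleGraph.Walk.cons_isPath_iff, SimpleGraph.Walk.support_cons,
      SimpleGraph.Walk.support_nil, List.mem_cons, List.mem_nil_iff, or_false]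
    exact ⟨⟨SimpleGraph.Walk.IsPath.nil, h2.ne⟩, fun hh => hh.elim h1.ne h3.ne⟩
  have hq : q.IsPath := by
    simp only [q, SimpleGraph.Walk.cons_isPath_iff, SimpleGraph.Walk.support_nil,
      List.mem_cons, List.mem_nil_iff, or_false]
    exact ⟨SimpleGraph.Walk.IsPath.nil, h3.ne⟩
  have := congrArg (fun r : (ex.induce (S : Set (Fin 19))).Path ⟨a, ha⟩ ⟨c, hc⟩ => r.1.length)
    (h.isAcyclic.path_unique ⟨p, hp⟩ ⟨q, hq⟩)
  simp [p, q] at this

theorem no_square {S : Finset (Fin 19)} (h : (ex.induce (S : Set (Fin 19))).IsTree)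
    {a b c d : Fin 19} (ha : a ∈ S) (hb : b ∈ S) (hc : c ∈ S) (hd : d ∈ S) (hac : a ≠ c)
    (hbd : b ≠ d) (hab : D a b = 1) (hbc : D b c = 1) (hcd : D a d = 1) (hda : D d c = 1) :
    False := by
  have h1 : (ex.induce (S : Set (Fin 19))).Adj ⟨a, ha⟩ ⟨b, hb⟩ := hab
  have h2 : (ex.induce (S : Set (Fin 19))).Adj ⟨b, hb⟩ ⟨c, hc⟩ := hbc
  have h3 : (ex.induce (S : Set (Fin 19))).Adj ⟨a, ha⟩ ⟨d, hd⟩ := hcd
  have h4 : (ex.induce (S : Set (Fin 19))).Adj ⟨d, hd⟩ ⟨c, hc⟩ := hda
  have hac' : (⟨a, ha⟩ : ((S : Set (Fin 19)) : Type)) ≠ ⟨c, hc⟩ := fun hh => hac (by simpa using hh)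
  let p : (ex.induce (S : Set (Fin 19))).Walk ⟨a, ha⟩ ⟨c, hc⟩ := .cons h1 (.cons h2 .nil)
  let q : (ex.induce (S : Set (Fin 19))).Walk ⟨a, ha⟩ ⟨c, hc⟩ := .cons h3 (.cons h4 .nil)
  have hp : p.IsPath := by
    simp only [p, SimpleGraph.Walk.cons_isPath_iff, SimpleGraph.Walk.support_cons,
      SimpleGraph.Walk.support_nil, List.mem_cons, List.mem_nil_iff, or_false]
    exact ⟨⟨SimpleGraph.Walk.IsPath.nil, h2.ne⟩, fun hh => hh.elim h1.ne hac'⟩
  have hq : q.IsPath := by
    simp only [q, SimpleGraph.Walk.cons_isPath_iff, SimpleGraph.Walk.support_cons,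
      SimpleGraph.Walk.support_nil, List.mem_cons, List.mem_nil_iff, or_false]
    exact ⟨⟨SimpleGraph.Walk.IsPath.nil, h4.ne⟩, fun hh => hh.elim h3.ne hac'⟩
  have := congrArg (fun r : (ex.induce (S : Set (Fin 19))).Path ⟨a, ha⟩ ⟨c, hc⟩ => r.1.support)
    (h.isAcyclic.path_unique ⟨p, hp⟩ ⟨q, hq⟩)
  simp only [p, q, SimpleGraph.Walk.support_cons, SimpleGraph.Walk.support_nil,
    List.cons.injEq, Subtype.mk.injEq, and_true, true_and] at this
  exact hbd this

theorem cut {S : Finset (Fin 19)} (h : (ex.induce (S : Set (Fin 19))).IsTree) (k : ℕ)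
    {a b : Fin 19} (ha : a ∈ S) (hb : b ∈ S) (hak : L a < k) (hbk : k < L b) :
    ∃ c ∈ S, L c = k := by
  obtain ⟨p⟩ := h.connected.preconnected ⟨a, ha⟩ ⟨b, hb⟩
  obtain ⟨d, -, hd1, hd2⟩ := p.exists_boundary_dart {x | L x.1 < k} hak
    (fun hh => by
      have : L b < k := hh
      omega)
  have hadj : D d.fst.1 d.snd.1 = 1 := d.adj
  have h1 : L d.fst.1 < k := hd1
  have h2 : ¬ L d.snd.1 < k := hd2
  refine ⟨d.snd.1, d.snd.2, ?_⟩
  have key : ∀ u v : Fin 19, D u v = 1 → L v ≤ L u + 1 := by decide +kernel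
  have := key _ _ hadj
  omega

theorem card_levels (S : Finset (Fin 19)) : S.card = ∑ i ∈ range 7, (S.filter (fun x => L x = i)).card := by
  apply card_eq_sum_card_fiberwise
  intro x _
  have : ∀ u : Fin 19, L u < 7 := by decide +kernel
  simpa using this x

theorem level_le (S : Finset (Fin 19)) (i m : ℕ)
    (hm : ((univ : Finset (Fin 19)).filter (fun x => L x = i)).card = m) :
    (S.filter (fun x => L x = i)).card ≤ m := by
  rw [← hm]
  exact card_le_card (filter_subset_filter _ (subset_univ _))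

theorem tree_le (S : Finset (Fin 19)) (h : (ex.induce (S : Set (Fin 19))).IsTree) :
    S.card ≤ 7 := by
  classical
  set c : ℕ → ℕ := fun i => (S.filter (fun x => L x = i)).card with hc
  have hsum : S.card = c 0 + c 1 + c 2 + c 3 + c 4 + c 5 + c 6 := by
    rw [card_levels S]
    simp only [sum_range_succ, sum_range_zero, hc]
    omega
  have h1 : c 1 ≤ 1 := level_le S 1 1 (by decide +kernel)
  have h2 : c 2 ≤ 3 := level_le S 2 3 (by decide +kernel)
  have h3 : c 3 ≤ 1 := level_le S 3 1 (by decide +kernel)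
  have h4 : c 4 ≤ 3 := level_le S 4 3 (by decide +kernel)
  have h5 : c 5 ≤ 1 := level_le S 5 1 (by decide +kernel)
  have hpos : ∀ i, 0 < c i → ∃ x ∈ S, L x = i := by
    intro i hi
    obtain ⟨x, hx⟩ := card_pos.1 hi
    exact ⟨x, (mem_filter.1 hx).1, (mem_filter.1 hx).2⟩
  have hpos' : ∀ i x, x ∈ S → L x = i → 0 < c i := by
    intro i x hx hL
    exact card_pos.2 ⟨x, mem_filter.2 ⟨hx, hL⟩⟩
  have htwo : ∀ i, 2 ≤ c i → ∃ x ∈ S, ∃ y ∈ S, x ≠ y ∧ L x = i ∧ L y = i := by
    intro i hi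
    obtain ⟨x, hx, y, hy, hxy⟩ := one_lt_card.1 hi
    exact ⟨x, (mem_filter.1 hx).1, y, (mem_filter.1 hy).1, hxy, (mem_filter.1 hx).2,
      (mem_filter.1 hy).2⟩
  have adj_lv : ∀ u v : Fin 19, L u + 1 = L v → D u v = 1 ∧ D v u = 1 := by decide +kernel
  have adj_cl : ∀ u v : Fin 19, u ≠ v → L u = L v → (L u = 0 ∨ L u = 6) → D u v = 1 := by
    decide +kernel
  -- cliques
  have hcl : ∀ i j, (i = 0 ∨ i = 6) → (j = i + 1 ∨ i = j + 1) → c i + c j ≤ 2 ∨ c j = 0 ∨ 2 ≤ c j := by
    intro i j hi hj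
    by_contra hcon
    push Not at hcon
    obtain ⟨x, hx, y, hy, hxy, hxi, hyi⟩ := htwo i (by omega)
    obtain ⟨z, hz, hzj⟩ := hpos j (by omega)
    have hxz : D x z = 1 ∧ D z x = 1 := by
      rcases hj with hj | hj
      · exact adj_lv x z (by omega)
      · exact (adj_lv z x (by omega)).symm
    have hyz : D y z = 1 ∧ D z y = 1 := by
      rcases hj with hj | hj
      · exact adj_lv y z (by omega)
      · exact (adj_lv z y (by omega)).symm
    exact no_triangle h hx hy hz (adj_cl x y hxy (by omega) (by omega)) hyz.1 hxz.1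
  have hcl3 : ∀ i, (i = 0 ∨ i = 6) → c i ≤ 2 := by
    intro i hi
    by_contra hcon
    push Not at hcon
    obtain ⟨x, y, z, hx, hy, hz, hxy, hxz, hyz⟩ := two_lt_card_iff.1 hcon
    rw [mem_filter] at hx hy hz
    exact no_triangle h hx.1 hy.1 hz.1 (adj_cl x y hxy (by omega) (by omega))
      (adj_cl y z hyz (by omega) (by omega)) (adj_cl x z hxz (by omega) (by omega))
  -- squares
  have hsq : ∀ i, 2 ≤ c (i + 1) → 0 < c i → 0 < c (i + 2) → False := by
    intro i hi hi0 hi2
    obtain ⟨x, hx, y, hy, hxy, hxi, hyi⟩ := htwo _ hi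
    obtain ⟨a, ha, hai⟩ := hpos _ hi0
    obtain ⟨b, hb, hbi⟩ := hpos _ hi2
    refine no_square h ha hx hb hy ?_ hxy (adj_lv a x (by omega)).1 (adj_lv x b (by omega)).1
      (adj_lv a y (by omega)).1 (adj_lv y b (by omega)).1
    rintro rfl
    omega
  -- cuts
  have hcut : ∀ i k j, i < k → k < j → 0 < c i → 0 < c j → 0 < c k := by
    intro i k j hik hkj hi hj
    obtain ⟨a, ha, hai⟩ := hpos _ hi
    obtain ⟨b, hb, hbi⟩ := hpos _ hj
    obtain ⟨x, hx, hxk⟩ := cut h k ha hb (by omega) (by omega)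
    exact hpos' k x hx hxk
  have a1 := hcl 0 1 (Or.inl rfl) (Or.inl rfl)
  have a2 := hcl 6 5 (Or.inr rfl) (Or.inr rfl)
  have a3 := hcl3 0 (Or.inl rfl)
  have a4 := hcl3 6 (Or.inr rfl)
  have b1 := hsq 1
  have b2 := hsq 3
  have d1 := hcut 2 3 4 (by norm_num) (by norm_num)
  have d2 := hcut 0 1 2 (by norm_num) (by norm_num)
  have d3 := hcut 0 1 3 (by norm_num) (by norm_num)
  have d4 := hcut 4 5 6 (by norm_num) (by norm_num)
  have d5 := hcut 3 5 6 (by norm_num) (by norm_num)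
  have d6 := hcut 0 3 4 (by norm_num) (by norm_num)
  have d7 := hcut 1 3 4 (by norm_num) (by norm_num)
  have d8 := hcut 2 3 5 (by norm_num) (by norm_num)
  have d9 := hcut 2 3 6 (by norm_num) (by norm_num)
  simp only [Nat.reduceAdd] at b1 b2
  by_contra hcon
  push Not at hcon
  by_cases e3 : c 3 = 0
  · by_cases e2 : c 2 = 0
    · by_cases e0 : c 0 = 0
      · omega
      · omega
    · omega
  · by_cases e2 : 2 ≤ c 2
    · have f1 : c 1 = 0 := by
        by_contra f1
        exact b1 e2 (by omega) (by omega)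
      have f0 : c 0 = 0 := by
        by_contra f0
        have := d3 (by omega) (by omega)
        omega
      by_cases e4 : 2 ≤ c 4
      · have f5 : c 5 = 0 := by
          by_contra f5
          exact b2 e4 (by omega) (by omega)
        have f6 : c 6 = 0 := by
          by_contra f6
          have := d5 (by omega) (by omega)
          omega
        omega
      · omega
    · by_cases e4 : 2 ≤ c 4
      · have f5 : c 5 = 0 := by
          by_contra f5
          exact b2 e4 (by omega) (by omega)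
        have f6 : c 6 = 0 := by
          by_contra f6
          have := d5 (by omega) (by omega)
          omega
        omega
      · omega

/-- Some connected graph has `tree(G) < ⌈ecc_avg(G) + (1/3) max λ⌉`. -/
theorem result : ∃ (n : ℕ) (G : SimpleGraph (Fin n)), G.Connected ∧
    (treeNum G : ℤ) < ⌈eccAvg G + 1 / 3 * (maxLam G : ℝ)⌉ := by
  obtain ⟨hc, hd⟩ := ex_dist
  refine ⟨19, ex, ⟨hc⟩, ?_⟩
  have h1 : treeNum ex ≤ 7 := by
    apply csSup_le'
    rintro k ⟨S, hS, rfl⟩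
    exact tree_le S hS
  have h2 : 6 ≤ maxLam ex := by
    have h3 : lam ex 9 ≤ maxLam ex := le_sup (f := fun v => lam ex v) (mem_univ (9 : Fin 19))
    refine le_trans ?_ h3
    have hN : ∀ x ∈ ({6, 7, 8, 10, 11, 12} : Finset (Fin 19)), x ∈ ex.neighborSet 9 := by
      show ∀ x ∈ ({6, 7, 8, 10, 11, 12} : Finset (Fin 19)), D 9 x = 1
      decide +kernel
    let F : Finset (Fin 19) := {6, 7, 8, 10, 11, 12}
    let g : {x // x ∈ F} ↪ ex.neighborSet 9 := ⟨fun x => ⟨x.1, hN x.1 x.2⟩, fun a b hab =>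
      Subtype.ext (congrArg (fun z : ex.neighborSet 9 => z.1) hab)⟩
    have hI : (ex.induce (ex.neighborSet 9)).IsIndepSet
        ((F.attach.map g : Finset (ex.neighborSet 9)) : Set (ex.neighborSet 9)) := by
      intro a ha b hb _ hab
      rw [mem_coe, mem_map] at ha hb
      obtain ⟨x, -, rfl⟩ := ha
      obtain ⟨y, -, rfl⟩ := hb
      have h4 : D x.1 y.1 = 1 := hab
      have h5 : ∀ x ∈ ({6, 7, 8, 10, 11, 12} : Finset (Fin 19)),
          ∀ y ∈ ({6, 7, 8, 10, 11, 12} : Finset (Fin 19)), D x y ≠ 1 := by decide +kernel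
      exact h5 x.1 x.2 y.1 y.2 h4
    have := hI.card_le_indepNum
    rw [card_map, card_attach] at this
    exact this
  have h3 : (97 : ℝ) ≤ ∑ v, (ecc ex v : ℝ) := by
    have h4 : ∀ v : Fin 19, D v (if L v ≤ 3 then 18 else 0) ≤ ecc ex v := by
      intro v
      rw [← hd]
      exact le_sup (f := fun u => ex.dist v u) (mem_univ _)
    have h5 : ∑ v : Fin 19, D v (if L v ≤ 3 then 18 else 0) = 97 := by decide +kernel
    have h6 : (97 : ℕ) ≤ ∑ v, ecc ex v := by
      rw [← h5]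
      exact sum_le_sum fun v _ => h4 v
    exact_mod_cast h6
  rw [Int.lt_ceil]
  unfold eccAvg
  rw [Fintype.card_fin]
  have h7 : (treeNum ex : ℝ) ≤ 7 := by exact_mod_cast h1
  have h8 : (6 : ℝ) ≤ (maxLam ex : ℝ) := by exact_mod_cast h2
  have h9 : (97 : ℝ) / 19 ≤ (∑ v, (ecc ex v : ℝ)) / (19 : ℕ) := by
    push_cast
    exact div_le_div_of_nonneg_right h3 (by norm_num)
  push_cast at h9 ⊢
  linarith

end Pool.Agent.Results.MP_e3442a_co.TreeEccLambda
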